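import Pool.Agent.CTD.FinC

set_option autoImplicit false

namespace Pool.Agent.Results.MP_8d342a_al.PowerSlopesFinite

open CTD

/-- Question Q1 for finite lists of class transpositions all of whose slopes `m₂ / m₁` are
integral powers of one integer `b ≥ 2`: a criterion, and decidability. -/
theorem result :
    (∀ L : List Data, InFam L → (¬ FinOrb L ↔ ∃ g ∈ grp L, Expands g)) ∧
    ∃ f : List Data → Option Bool, Computable f ∧ ∀ L : List Data,
      (InFam L ∧ FinOrb L ∧ f L = some true) ∨
      (InFam L ∧ ¬ FinOrb L ∧ f L = some false) ∨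
      (¬ InFam L ∧ f L = none) :=
  ⟨fun _ h => fam_expand h, option_alg fin_fam fin_one⟩

end Pool.Agent.Results.MP_8d342a_al.PowerSlopesFinite
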