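import Pool.Agent.CTD.FinB

set_option autoImplicit false

namespace Pool.Agent.Results.MP_8d342a_al.PowerSlopesTransitive

open CTD

/-- Question Q2 is decidable for finite lists of class transpositions all of whose slopes
`m₂ / m₁` are integral powers of one integer `b ≥ 2`. -/
theorem result : ∃ f : List Data → Option Bool, Computable f ∧ ∀ L : List Data,
    (InFam L ∧ Trans L ∧ f L = some true) ∨
    (InFam L ∧ ¬ Trans L ∧ f L = some false) ∨
    (¬ InFam L ∧ f L = none) :=
  option_alg fin_fam fin_two

end Pool.Agent.Results.MP_8d342a_al.PowerSlopesTransitive
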