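import Pool.Agent.CTD.FinA

set_option autoImplicit false

namespace Pool.Agent.Results.MP_8d342a_al.TwoGenFinite

open CTD

/-- Groups generated by two class transpositions: a criterion for the finiteness of all orbits,
and the decidability of question Q1. -/
theorem result :
    (∀ (t₁ t₂ : Data) (g₁ g₂ : Equiv.Perm ℤ), IsCT t₁ → IsCT t₂ → Is t₁ g₁ → Is t₂ g₂ →
      (¬ FinOrb [t₁, t₂] ↔ (Expands ((g₁ * g₂) ^ 2) ∨ Expands (((g₁ * g₂) ^ 2)⁻¹)))) ∧
    ∃ f : List Data → Option Bool, Computable f ∧ ∀ L : List Data,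
      (TwoGen L ∧ FinOrb L ∧ f L = some true) ∨
      (TwoGen L ∧ ¬ FinOrb L ∧ f L = some false) ∨
      (¬ TwoGen L ∧ f L = none) :=
  ⟨fun _ _ _ _ h1 h2 i1 i2 => two_perm h1 h2 i1 i2, option_alg pri_twoGen pri_twoGen_fin⟩

end Pool.Agent.Results.MP_8d342a_al.TwoGenFinite
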