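import Pool.Agent.CTD.FinA

set_option autoImplicit false

namespace Pool.Agent.Results.MP_8d342a_al.TwoGenOrbits

open CTD

/-- A group generated by one or two class transpositions has infinitely many orbits on the
nonnegative integers of its support; in particular it is not transitive there. -/
theorem result (L : List Data) (h : TwoGen L) (hne : L ≠ []) :
    ¬ Trans L ∧ Set.Infinite {O : Set ℤ | ∃ x : ℤ, 0 ≤ x ∧ x ∈ supp L ∧
      O = MulAction.orbit (grp L) x} :=
  ⟨twoGen_not_trans h hne, twoGen_many h hne⟩

end Pool.Agent.Results.MP_8d342a_al.TwoGenOrbits
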